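import Pool.Agent.LCK.Stmts

/-!
MP_e0fe99_lc, squad LCK, row OPN: being simple is an open condition.
-/

set_option autoImplicit false

open Topology

namespace Pool.Agent.LCK.H65o

open Pool.Agent.LCK

theorem opn (adj : ADJStmt) : OPNStmt := by
  intro n v hv hne
  have key : ∀ i j : Fin n, i < j → ∀ᶠ v' : Fin (n + 1) → E3 in 𝓝 v,
      segment ℝ (v' i.castSucc) (v' i.succ) ∩ segment ℝ (v' j.castSucc) (v' j.succ) =
        if (j : ℕ) = (i : ℕ) + 1 then {v' i.succ} else ∅ := by
    intro i j hij
    have h0 := hv i j hij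
    by_cases hc : (j : ℕ) = (i : ℕ) + 1
    · rw [if_pos hc] at h0
      have hji : j.castSucc = i.succ := by
        apply Fin.ext
        simp [hc]
      rw [hji] at h0
      have ha : v i.castSucc ≠ v i.succ := hne i
      have hb : v j.succ ≠ v i.succ := by
        have h1 := (hne j).symm
        rwa [hji] at h1
      have h1 := (adj _ _ _ ha hb).1 h0
      have c1 : Continuous fun v' : Fin (n + 1) → E3 => v' i.castSucc := continuous_apply _
      have c2 : Continuous fun v' : Fin (n + 1) → E3 => v' i.succ := continuous_apply _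
      have c3 : Continuous fun v' : Fin (n + 1) → E3 => v' j.succ := continuous_apply _
      have e1 : ∀ᶠ v' : Fin (n + 1) → E3 in 𝓝 v, v' i.castSucc ≠ v' i.succ :=
        (isOpen_ne_fun c1 c2).mem_nhds ha
      have e2 : ∀ᶠ v' : Fin (n + 1) → E3 in 𝓝 v, v' j.succ ≠ v' i.succ :=
        (isOpen_ne_fun c3 c2).mem_nhds hb
      have e3 : ∀ᶠ v' : Fin (n + 1) → E3 in 𝓝 v,
          inner ℝ (v' i.castSucc - v' i.succ) (v' j.succ - v' i.succ) <
            ‖v' i.castSucc - v' i.succ‖ * ‖v' j.succ - v' i.succ‖ :=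
        (isOpen_lt (((c1.sub c2).inner (c3.sub c2)))
          ((c1.sub c2).norm.mul (c3.sub c2).norm)).mem_nhds h1
      filter_upwards [e1, e2, e3] with v' f1 f2 f3
      rw [if_pos hc, hji]
      exact (adj _ _ _ f1 f2).2 f3
    · rw [if_neg hc] at h0
      have hK : IsCompact (Set.Icc (0 : ℝ) 1 ×ˢ Set.Icc (0 : ℝ) 1) := isCompact_Icc.prod isCompact_Icc
      have hF : Continuous fun z : (Fin (n + 1) → E3) × (ℝ × ℝ) =>
          ((1 - z.2.1) • z.1 i.castSucc + z.2.1 • z.1 i.succ) -
            ((1 - z.2.2) • z.1 j.castSucc + z.2.2 • z.1 j.succ) := by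
        fun_prop
      have hP := hK.eventually_forall_of_forall_eventually (x₀ := v)
        (P := fun v' p => ((1 - p.1) • v' i.castSucc + p.1 • v' i.succ) -
            ((1 - p.2) • v' j.castSucc + p.2 • v' j.succ) ≠ 0) (by
        intro p hp
        refine hF.continuousAt.eventually_ne ?_
        intro h
        have h2 : (1 - p.1) • v i.castSucc + p.1 • v i.succ ∈
            segment ℝ (v i.castSucc) (v i.succ) ∩ segment ℝ (v j.castSucc) (v j.succ) := by
          refine ⟨⟨1 - p.1, p.1, by linarith [hp.1.2], hp.1.1, by ring, rfl⟩, ?_⟩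
          rw [sub_eq_zero.1 h]
          exact ⟨1 - p.2, p.2, by linarith [hp.2.2], hp.2.1, by ring, rfl⟩
        rw [h0] at h2
        exact h2.elim)
      filter_upwards [hP] with v' hv'
      rw [if_neg hc, Set.eq_empty_iff_forall_notMem]
      rintro z ⟨⟨a, b, ha, hb, hab, hz⟩, ⟨a', b', ha', hb', hab', hz'⟩⟩
      refine hv' (b, b') ⟨⟨hb, by linarith⟩, ⟨hb', by linarith⟩⟩ ?_
      have h1 : a = 1 - b := by linarith
      have h2 : a' = 1 - b' := by linarith
      rw [h1] at hz
      rw [h2] at hz'
      show ((1 - b) • v' i.castSucc + b • v' i.succ) -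
            ((1 - b') • v' j.castSucc + b' • v' j.succ) = 0
      rw [hz, hz', sub_self]
  have h := Filter.eventually_all.2 fun i : Fin n => Filter.eventually_all.2 fun j : Fin n =>
    (show ∀ᶠ v' : Fin (n + 1) → E3 in 𝓝 v, i < j →
      segment ℝ (v' i.castSucc) (v' i.succ) ∩ segment ℝ (v' j.castSucc) (v' j.succ) =
        if (j : ℕ) = (i : ℕ) + 1 then {v' i.succ} else ∅ by
      by_cases hij : i < j
      · filter_upwards [key i j hij] with v' h' _
        exact h'
      · exact Filter.Eventually.of_forall fun v' h' => (hij h').elim)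
  filter_upwards [h] with v' hv' i j hij
  exact hv' i j hij

end Pool.Agent.LCK.H65o
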