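import Pool.Agent.LCK.Stmts

/-!
# Squad LCK, rows EXT and RES
-/

open Topology Filter

namespace Pool.Agent.LCK.H65e

open Pool.Agent.LCK

theorem pos_ap {n : ℕ} {l : Fin n → ℝ} (hl : ∀ k, 0 < l k) {e : ℝ} (he : 0 < e) :
    ∀ k, 0 < ap l e k := by
  intro k
  refine Fin.lastCases ?_ (fun i => ?_) k
  · unfold ap
    rw [Fin.snoc_last]
    exact he
  · unfold ap
    rw [Fin.snoc_castSucc]
    exact hl i

/-- any number of links -/
theorem thr' (hBAS : BASStmt) (hTHR : THRStmt) : ∀ (n : ℕ) (l : Fin n → ℝ), (∀ k, 0 < l k) →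
    IsPreconnected (Conf l) →
    ∃ ε₀ : ℝ, 0 < ε₀ ∧ ∀ ε : ℝ, 0 < ε → ε < ε₀ → IsPreconnected (Conf (ap l ε)) := by
  intro n l hl hc
  cases n with
  | zero => exact ⟨1, one_pos, fun ε h _ => (hBAS l).2 ε h⟩
  | succ m => exact hTHR m l hl hc

theorem ext (hBAS : BASStmt) (hTHR : THRStmt) : EXTStmt := by
  intro n
  induction n with
  | zero =>
    refine ⟨fun _ => 1, fun k => Fin.elim0 k, ?_⟩
    exact (hBAS _).1
  | succ m ih =>
    obtain ⟨l, hl, hc⟩ := ih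
    have hl' : ∀ k, 0 < ((l k : ℚ) : ℝ) := fun k => by exact_mod_cast hl k
    obtain ⟨ε₀, h0, h1⟩ := thr' hBAS hTHR m (fun k => ((l k : ℚ) : ℝ)) hl' hc
    obtain ⟨ε, h2, h3⟩ := exists_rat_btwn h0
    refine ⟨Fin.snoc (α := fun _ => ℚ) l ε, ?_, ?_⟩
    · intro k
      refine Fin.lastCases ?_ (fun i => ?_) k
      · rw [Fin.snoc_last]
        exact_mod_cast h2
      · rw [Fin.snoc_castSucc]
        exact hl i
    · have e : (fun k => ((Fin.snoc (α := fun _ => ℚ) l ε k : ℚ) : ℝ)) =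
          ap (fun k => ((l k : ℚ) : ℝ)) (ε : ℝ) := by
        funext k
        refine Fin.lastCases ?_ (fun i => ?_) k
        · unfold ap
          rw [Fin.snoc_last, Fin.snoc_last]
        · unfold ap
          rw [Fin.snoc_castSucc, Fin.snoc_castSucc]
      rw [e]
      exact h1 _ h2 h3

theorem pos_rev {n : ℕ} {l : Fin n → ℝ} (hl : ∀ k, 0 < l k) : ∀ k : Fin n, 0 < l k.rev :=
  fun k => hl k.rev

theorem res (hUPS : UPSStmt) (hTHR : THRStmt) (hBAS : BASStmt) (hREV : REVStmt)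
    (hEXT : EXTStmt) (hLPC : LPCStmt) : RESStmt := by
  refine ⟨?_, ?_, ?_, ?_⟩
  · intro n l hl hn
    have hc : IsPreconnected (Conf l) := not_not.1 hn
    obtain ⟨r1, r2⟩ := hREV n
    have hc' : IsPreconnected (Conf (fun k => l k.rev)) := (r1 l).2 hc
    obtain ⟨ε₁, h1, g1⟩ := thr' hBAS hTHR n l hl hc
    obtain ⟨ε₂, h2, g2⟩ := thr' hBAS hTHR n _ (pos_rev hl) hc'
    refine ⟨min ε₁ ε₂, lt_min h1 h2, fun ε h0 h3 => ⟨?_, ?_⟩⟩
    · exact not_not.2 (g1 ε h0 (lt_of_lt_of_le h3 (min_le_left _ _)))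
    · exact not_not.2 ((r2 l ε).2 (g2 ε h0 (lt_of_lt_of_le h3 (min_le_right _ _))))
  · intro n l hl ε L hε hL
    obtain ⟨r1, r2⟩ := hREV n
    obtain ⟨u1, u2⟩ := hUPS n l hl
    obtain ⟨w1, w2⟩ := hUPS n (fun k => l k.rev) (pos_rev hl)
    have hL0 : 0 < L := lt_of_lt_of_le hε hL
    refine ⟨?_, ?_, ?_⟩
    · intro h1 h2
      exact h1 (u1 ε L hε hL h2)
    · intro h1 h2
      exact h1 ((r2 l ε).2 (w1 ε L hε hL ((r2 l L).1 h2)))
    · intro h1
      refine ⟨fun h2 => h1 (u2 L hL0 h2), fun h2 => h1 ?_⟩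
      exact (r1 l).1 (w2 L hL0 ((r2 l L).1 h2))
  · intro n
    obtain ⟨l, h1, h2⟩ := hEXT n
    exact ⟨l, h1, not_not.2 h2⟩
  · intro n l hl hn
    exact hLPC n l hl (not_not.1 hn)

end Pool.Agent.LCK.H65e
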