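import Pool.Agent.LCK.Stmts

/-!
# Squad LCK, row THR: a short link at the end of an unlocked chain
-/

open Topology Filter

namespace Pool.Agent.LCK.H65

open Pool.Agent.LCK

theorem av_cast {n : ℕ} (c : Fin (n + 1) → E3) (x : E3) (i : Fin (n + 1)) :
    av c x i.castSucc = c i := by
  unfold av
  rw [Fin.snoc_castSucc]

theorem av_last {n : ℕ} (c : Fin (n + 1) → E3) (x : E3) :
    av c x (Fin.last (n + 1)) = x := by
  unfold av
  rw [Fin.snoc_last]

/-- shorten the last link by the factor `r` -/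
noncomputable def sh {n : ℕ} (r : ℝ) (v : Fin (n + 2) → E3) : Fin (n + 2) → E3 :=
  av (fun i => v i.castSucc)
    (v (Fin.last n).castSucc + r • (v (Fin.last (n + 1)) - v (Fin.last n).castSucc))

theorem sh_av {n : ℕ} (r : ℝ) (c : Fin (n + 1) → E3) (x : E3) :
    sh r (av c x) = av c (c (Fin.last n) + r • (x - c (Fin.last n))) := by
  unfold sh
  rw [av_last, av_cast]
  have h : (fun i : Fin (n + 1) => av c x i.castSucc) = c := by
    funext i
    rw [av_cast]
  rw [h]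

theorem sh_cont (hSNC : SNCStmt) {n : ℕ} (r : ℝ) : Continuous (sh (n := n) r) := by
  obtain ⟨_, _, s3, _⟩ := hSNC n
  have h1 : Continuous fun v : Fin (n + 2) → E3 => ((fun i : Fin (n + 1) => v i.castSucc),
      (v (Fin.last n).castSucc + r • (v (Fin.last (n + 1)) - v (Fin.last n).castSucc))) := by
    fun_prop
  exact s3.comp h1

theorem sh_mem (hSNC : SNCStmt) {n : ℕ} {l : Fin n → ℝ} {ε : ℝ} (h0 : 0 < ε) (h1 : ε ≤ 1)
    {v : Fin (n + 2) → E3} (hv : v ∈ Conf (ap l 1)) : sh ε v ∈ Conf (ap l ε) := by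
  obtain ⟨s1, s2, _, s4⟩ := hSNC n
  obtain ⟨c, hc⟩ : ∃ c : Fin (n + 1) → E3, c = fun i => v i.castSucc := ⟨_, rfl⟩
  obtain ⟨x, hx⟩ : ∃ x : E3, x = v (Fin.last (n + 1)) := ⟨_, rfl⟩
  have hvv : v = av c x := by
    rw [hc, hx]
    exact (s2 v).symm
  rw [hvv] at hv ⊢
  obtain ⟨g1, g2, g3⟩ := (s1 l 1 c x).1 hv
  rw [sh_av]
  refine (s1 l ε c _).2 ⟨g1, ?_, ?_⟩
  · rw [dist_eq_norm] at g2 ⊢
    have h2 : c (Fin.last n) - (c (Fin.last n) + ε • (x - c (Fin.last n))) =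
        ε • (c (Fin.last n) - x) := by
      rw [sub_add_eq_sub_sub, sub_self, zero_sub, ← smul_neg, neg_sub]
    rw [h2, norm_smul, g2, Real.norm_eq_abs, abs_of_pos h0, mul_one]
  · apply s4 c _ ε h0.le h1
    rw [add_sub_cancel]
    exact g3

theorem thr (hSNC : SNCStmt) (hDEN : DENStmt) (hLPC : LPCStmt) (hPTH : PTHStmt)
    (hFIN : FINStmt) : THRStmt := by
  intro m l hl hconn
  obtain ⟨s1, s2, s3, s4⟩ := hSNC (m + 1)
  have hl1 : ∀ k, 0 < ap l 1 k := by
    intro k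
    refine Fin.lastCases ?_ (fun i => ?_) k
    · unfold ap
      rw [Fin.snoc_last]
      norm_num
    · unfold ap
      rw [Fin.snoc_castSucc]
      exact hl i
  obtain ⟨F, hF, hF1, hF2⟩ := hFIN (m + 1 + 1) (ap l 1) hl1
  -- two configurations
  have hpair : ∀ v ∈ Conf (ap l 1), ∀ v' ∈ Conf (ap l 1), ∀ᶠ ε in 𝓝[>] (0 : ℝ),
      ∃ u ⊆ Conf (ap l ε), IsPreconnected u ∧ sh ε v ∈ u ∧ sh ε v' ∈ u := by
    intro v hv v' hv'
    have e1 := s2 v
    have e2 := s2 v'
    have h1 := hv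
    have h2 := hv'
    rw [← e1] at h1
    rw [← e2] at h2
    have g1 := ((s1 l 1 _ _).1 h1).1
    have g2 := ((s1 l 1 _ _).1 h2).1
    obtain ⟨δ, hδ, hP⟩ := hPTH m l hl _ _ (hLPC (m + 1) l hl hconn _ g1 _ g2)
    have h3 : Set.Ioo (0 : ℝ) (min δ 1) ∈ 𝓝[>] (0 : ℝ) :=
      Ioo_mem_nhdsGT (lt_min hδ one_pos)
    filter_upwards [h3] with ε hε
    have h4 : sh ε v ∈ Conf (ap l ε) :=
      sh_mem hSNC hε.1 ((hε.2.le).trans (min_le_right _ _)) hv
    have h5 : sh ε v' ∈ Conf (ap l ε) :=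
      sh_mem hSNC hε.1 ((hε.2.le).trans (min_le_right _ _)) hv'
    exact hP ε hε.1 (lt_of_lt_of_le hε.2 (min_le_left _ _)) _ _ h4 h5
  have hall : ∀ᶠ ε in 𝓝[>] (0 : ℝ), ∀ t ∈ F, ∀ t' ∈ F, ∀ (h : t.Nonempty) (h' : t'.Nonempty),
      ∃ u ⊆ Conf (ap l ε), IsPreconnected u ∧ sh ε h.some ∈ u ∧ sh ε h'.some ∈ u := by
    rw [Filter.eventually_all_finite hF]
    intro t ht
    rw [Filter.eventually_all_finite hF]
    intro t' ht'
    by_cases h : t.Nonempty
    · by_cases h' : t'.Nonempty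
      · filter_upwards [hpair h.some ((hF1 t ht).2 h.some_mem) h'.some
          ((hF1 t' ht').2 h'.some_mem)] with ε hε
        intro _ _
        exact hε
      · exact Filter.Eventually.of_forall fun ε _ h2 => absurd h2 h'
    · exact Filter.Eventually.of_forall fun ε h2 _ => absurd h2 h
  have hsmall : Set.Ioo (0 : ℝ) 1 ∈ 𝓝[>] (0 : ℝ) := Ioo_mem_nhdsGT one_pos
  have hfin : ∀ᶠ ε in 𝓝[>] (0 : ℝ), IsPreconnected (Conf (ap l ε)) := by
    filter_upwards [hall, hsmall] with ε hε hε1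
    -- joined points
    have hj : ∀ v ∈ Conf (ap l 1), ∀ v' ∈ Conf (ap l 1),
        sh ε v' ∈ connectedComponentIn (Conf (ap l ε)) (sh ε v) := by
      intro v hv v' hv'
      obtain ⟨t, ht, hvt⟩ := hF2 hv
      obtain ⟨t', ht', hvt'⟩ := hF2 hv'
      have hn : t.Nonempty := ⟨v, hvt⟩
      have hn' : t'.Nonempty := ⟨v', hvt'⟩
      obtain ⟨u, hu, hu1, hu2, hu3⟩ := hε t ht t' ht' hn hn'
      have i1 : sh ε '' t ⊆ Conf (ap l ε) := by
        rintro _ ⟨w, hw, rfl⟩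
        exact sh_mem hSNC hε1.1 hε1.2.le ((hF1 t ht).2 hw)
      have i2 : sh ε '' t' ⊆ Conf (ap l ε) := by
        rintro _ ⟨w, hw, rfl⟩
        exact sh_mem hSNC hε1.1 hε1.2.le ((hF1 t' ht').2 hw)
      have p1 : IsPreconnected (sh ε '' t) :=
        (hF1 t ht).1.image _ (sh_cont hSNC ε).continuousOn
      have p2 : IsPreconnected (sh ε '' t') :=
        (hF1 t' ht').1.image _ (sh_cont hSNC ε).continuousOn
      have q1 : IsPreconnected (sh ε '' t ∪ u) :=
        p1.union (sh ε hn.some) ⟨_, hn.some_mem, rfl⟩ hu2 hu1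
      have q2 : IsPreconnected (sh ε '' t ∪ u ∪ sh ε '' t') :=
        q1.union (sh ε hn'.some) (Or.inr hu3) ⟨_, hn'.some_mem, rfl⟩ p2
      have q3 : sh ε '' t ∪ u ∪ sh ε '' t' ⊆ Conf (ap l ε) :=
        Set.union_subset (Set.union_subset i1 hu) i2
      exact q2.subset_connectedComponentIn (Or.inl (Or.inl ⟨v, hvt, rfl⟩)) q3
        (Or.inr ⟨v', hvt', rfl⟩)
    -- density
    have hdense : ∀ z ∈ Conf (ap l ε), z ∈ closure (sh ε '' Conf (ap l 1)) := by
      intro z hz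
      rw [← s2 z] at hz
      rw [← s2 z]
      obtain ⟨c, hc⟩ : ∃ c : Fin (m + 1 + 1) → E3, c = fun i => z i.castSucc := ⟨_, rfl⟩
      obtain ⟨x, hx⟩ : ∃ x : E3, x = z (Fin.last (m + 1 + 1)) := ⟨_, rfl⟩
      rw [← hc, ← hx] at hz ⊢
      obtain ⟨g1, g2, g3⟩ := (s1 l ε c x).1 hz
      rw [mem_closure_iff_nhds]
      intro O hO
      have hcx : Continuous fun x' : E3 => av c x' := s3.comp (by fun_prop :
        Continuous fun x' : E3 => (c, x'))
      have h1 : (fun x' : E3 => av c x') ⁻¹' O ∈ 𝓝 x := hcx.continuousAt hO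
      obtain ⟨δ, hδ, hball⟩ := Metric.mem_nhds_iff.1 h1
      have hxc : x ≠ c (Fin.last (m + 1)) := by
        intro h2
        rw [h2, dist_self] at g2
        exact hε1.1.ne g2
      obtain ⟨y, hy1, hy2, hy3⟩ := hDEN (m + 1) l hl c g1 x δ hxc hδ
      refine ⟨av c y, hball (by rw [Metric.mem_ball, dist_eq_norm]; exact hy1), ?_⟩
      refine ⟨av c (c (Fin.last (m + 1)) + (1 / ε) • (y - c (Fin.last (m + 1)))), ?_, ?_⟩
      · refine (s1 l 1 c _).2 ⟨g1, ?_, hy3 _ (one_div_pos.2 hε1.1)⟩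
        rw [g2, dist_eq_norm] at hy2
        rw [dist_eq_norm]
        have h2 : c (Fin.last (m + 1)) - (c (Fin.last (m + 1)) +
            (1 / ε) • (y - c (Fin.last (m + 1)))) = (1 / ε) • (c (Fin.last (m + 1)) - y) := by
          rw [sub_add_eq_sub_sub, sub_self, zero_sub, ← smul_neg, neg_sub]
        rw [h2, norm_smul, hy2, Real.norm_eq_abs, abs_of_pos (one_div_pos.2 hε1.1),
          one_div_mul_cancel hε1.1.ne']
      · rw [sh_av, add_sub_cancel_left, smul_smul, mul_one_div_cancel hε1.1.ne', one_smul,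
          add_sub_cancel]
    by_cases hne : (Conf (ap l 1)).Nonempty
    · obtain ⟨v, hv⟩ := hne
      have h1 : sh ε '' Conf (ap l 1) ⊆ connectedComponentIn (Conf (ap l ε)) (sh ε v) := by
        rintro _ ⟨w, hw, rfl⟩
        exact hj v hv w hw
      exact isPreconnected_connectedComponentIn.subset_closure
        (connectedComponentIn_subset _ _) (fun z hz => closure_mono h1 (hdense z hz))
    · rw [Set.not_nonempty_iff_eq_empty] at hne
      have h1 : Conf (ap l ε) = ∅ := by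
        rw [Set.eq_empty_iff_forall_notMem]
        intro z hz
        have h2 := hdense z hz
        rw [hne, Set.image_empty, closure_empty] at h2
        exact h2
      rw [h1]
      exact isPreconnected_empty
  obtain ⟨ε₀, h0, h1⟩ := (mem_nhdsGT_iff_exists_Ioo_subset).1 hfin
  exact ⟨ε₀, h0, fun ε h2 h3 => h1 ⟨h2, h3⟩⟩

end Pool.Agent.LCK.H65
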