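import Pool.Agent.LCK.Stmts

/-!
# Squad LCK: thresholds for the end links, from `RESStmt`
-/

open Topology Filter

namespace Pool.Agent.LCK.H65t

open Pool.Agent.LCK

/-- thresholds of a monotone property -/
theorem thresh {P : ℝ → Prop} (h1 : ∃ ε₀ : ℝ, 0 < ε₀ ∧ ∀ ε : ℝ, 0 < ε → ε < ε₀ → P ε)
    (h2 : ∀ ε L : ℝ, 0 < ε → ε ≤ L → P L → P ε) :
    ∃ τ : ENNReal, 0 < τ ∧ ∀ L : ℝ, 0 < L →
      (ENNReal.ofReal L < τ → P L) ∧ (τ < ENNReal.ofReal L → ¬ P L) := by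
  obtain ⟨ε₀, h3, h4⟩ := h1
  refine ⟨sSup {x : ENNReal | ∃ L : ℝ, 0 < L ∧ P L ∧ x = ENNReal.ofReal L}, ?_, ?_⟩
  · have h5 : ENNReal.ofReal (ε₀ / 2) ≤
        sSup {x : ENNReal | ∃ L : ℝ, 0 < L ∧ P L ∧ x = ENNReal.ofReal L} :=
      le_sSup ⟨ε₀ / 2, by linarith, h4 _ (by linarith) (by linarith), rfl⟩
    exact lt_of_lt_of_le (ENNReal.ofReal_pos.2 (by linarith)) h5
  · intro L hL
    refine ⟨?_, ?_⟩
    · intro h5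
      obtain ⟨x, ⟨L', h6, h7, rfl⟩, h8⟩ := lt_sSup_iff.1 h5
      have h9 : L < L' := (ENNReal.ofReal_lt_ofReal_iff h6).1 h8
      exact h2 L L' hL h9.le h7
    · intro h5 h6
      have h7 : ENNReal.ofReal L ≤
          sSup {x : ENNReal | ∃ L : ℝ, 0 < L ∧ P L ∧ x = ENNReal.ofReal L} :=
        le_sSup ⟨L, hL, h6, rfl⟩
      exact absurd h7 (not_le.2 h5)

theorem ths (h : RESStmt) :
    (∀ (n : ℕ) (l : Fin n → ℝ), (∀ k, 0 < l k) → ¬ Locked l →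
      ∃ τ τ' : ENNReal, 0 < τ ∧ 0 < τ' ∧ ∀ L : ℝ, 0 < L →
        (ENNReal.ofReal L < τ → ¬ Locked (ap l L)) ∧ (τ < ENNReal.ofReal L → Locked (ap l L)) ∧
        (ENNReal.ofReal L < τ' → ¬ Locked (pr L l)) ∧ (τ' < ENNReal.ofReal L → Locked (pr L l))) ∧
    (∀ (n : ℕ) (l : Fin n → ℝ), (∀ k, 0 < l k) → ∀ L : ℝ, 0 < L → Locked l →
      Locked (ap l L) ∧ Locked (pr L l)) ∧
    (∀ n : ℕ, ∃ l : Fin n → ℚ, (∀ k, 0 < l k) ∧ ¬ Locked (fun k => (l k : ℝ))) := by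
  obtain ⟨h1, h2, h3, -⟩ := h
  refine ⟨?_, ?_, h3⟩
  · intro n l hl hn
    obtain ⟨ε₀, e1, e2⟩ := h1 n l hl hn
    obtain ⟨τ, t1, t2⟩ := thresh (P := fun L => ¬ Locked (ap l L))
      ⟨ε₀, e1, fun ε g1 g2 => (e2 ε g1 g2).1⟩
      (fun ε L g1 g2 g3 g4 => g3 ((h2 n l hl ε L g1 g2).1 g4))
    obtain ⟨τ', t3, t4⟩ := thresh (P := fun L => ¬ Locked (pr L l))
      ⟨ε₀, e1, fun ε g1 g2 => (e2 ε g1 g2).2⟩
      (fun ε L g1 g2 g3 g4 => g3 ((h2 n l hl ε L g1 g2).2.1 g4))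
    refine ⟨τ, τ', t1, t3, fun L hL => ⟨(t2 L hL).1, fun g => not_not.1 ((t2 L hL).2 g),
      (t4 L hL).1, fun g => not_not.1 ((t4 L hL).2 g)⟩⟩
  · intro n l hl L hL hn
    exact (h2 n l hl L L hL le_rfl).2.2 hn

end Pool.Agent.LCK.H65t
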